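import Pool.Agent.H937R3.EllOne

/-!
# Closed right ideals of the augmentation ideal of `ℓ¹(G)`
-/

set_option autoImplicit false

namespace Pool.Agent.D0H82.AG

open H937R3

variable {G : Type} [Group G] [DecidableEq G]

instance completeSpace_ellOne : CompleteSpace (EllOne G) :=
  (inferInstance : CompleteSpace (L1 G))

omit [Group G] [DecidableEq G] in
theorem summable_norm_coeff (f : EllOne G) : Summable fun x => ‖f.coeff x‖ :=
  L1.summable_norm (G := G) f

omit [Group G] [DecidableEq G] in
theorem summable_coeff (f : EllOne G) : Summable fun x => f.coeff x :=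
  (summable_norm_coeff f).of_norm

theorem coeff_add (f g : EllOne G) (x : G) : (f + g).coeff x = f.coeff x + g.coeff x := rfl

theorem coeff_sub (f g : EllOne G) (x : G) : (f - g).coeff x = f.coeff x - g.coeff x := rfl

theorem coeff_smul (c : ℂ) (f : EllOne G) (x : G) : (c • f).coeff x = c * f.coeff x := rfl

theorem coeff_zero (x : G) : (0 : EllOne G).coeff x = 0 := rfl

omit [Group G] in
theorem coeff_delta (y x : G) : (EllOne.delta y : EllOne G).coeff x = if x = y then 1 else 0 :=
  L1.delta_apply y x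

/-- The augmentation ideal `I₀(G)` of `ℓ¹(G)`: the functions whose values sum to zero. -/
def I0 (G : Type) [Group G] [DecidableEq G] : Submodule ℂ (EllOne G) where
  carrier := {f | ∑' x, f.coeff x = 0}
  add_mem' := by
    intro f g hf hg
    simp only [Set.mem_ofPred_eq] at hf hg ⊢
    simp only [coeff_add]
    rw [(summable_coeff f).tsum_add (summable_coeff g), hf, hg, add_zero]
  zero_mem' := by
    simp [coeff_zero]
  smul_mem' := by
    intro c f hf
    simp only [Set.mem_ofPred_eq] at hf ⊢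
    simp only [coeff_smul]
    rw [tsum_mul_left, hf, mul_zero]

theorem mem_I0 (f : EllOne G) : f ∈ I0 G ↔ ∑' x, f.coeff x = 0 := Iff.rfl

/-- `J` is a closed right ideal of the Banach algebra `I₀(G)`: a norm closed linear subspace of
`I₀(G)` with `f * h ∈ J` for all `f ∈ J` and `h ∈ I₀(G)`. -/
structure IsClosedRightIdeal (J : Submodule ℂ (EllOne G)) : Prop where
  le_I0 : J ≤ I0 G
  isClosed : IsClosed (J : Set (EllOne G))
  mul_mem : ∀ f ∈ J, ∀ h ∈ I0 G, f * h ∈ J

/-- `J` is the closed right ideal of `I₀(G)` generated by the family `x`: the smallest closed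
right ideal of `I₀(G)` which contains all the `x i`. -/
def IsGeneratedBy {k : ℕ} (J : Submodule ℂ (EllOne G)) (x : Fin k → EllOne G) : Prop :=
  IsClosedRightIdeal J ∧ (∀ i, x i ∈ J) ∧
    ∀ J' : Submodule ℂ (EllOne G), IsClosedRightIdeal J' → (∀ i, x i ∈ J') → J ≤ J'

/-- The pairing of `ℓ¹(G)` with a bounded function. -/
noncomputable def pair (φ : G → ℂ) (C : ℝ) (hφ : ∀ g, ‖φ g‖ ≤ C) : EllOne G →L[ℂ] ℂ :=
  EllOne.lift φ C hφ

theorem pair_apply (φ : G → ℂ) (C : ℝ) (hφ : ∀ g, ‖φ g‖ ≤ C) (f : EllOne G) :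
    pair φ C hφ f = ∑' x, f.coeff x * φ x := by
  change L1.lift φ C hφ f = _
  rw [L1.lift_apply]
  rfl

theorem pair_delta (φ : G → ℂ) (C : ℝ) (hφ : ∀ g, ‖φ g‖ ≤ C) (x : G) :
    pair φ C hφ (EllOne.delta x) = φ x := EllOne.lift_delta φ C hφ x

/-- The augmentation character as a continuous functional. -/
noncomputable def aug (G : Type) [Group G] [DecidableEq G] : EllOne G →L[ℂ] ℂ :=
  pair (fun _ : G => (1 : ℂ)) 1 (by simp)

theorem aug_apply (f : EllOne G) : aug G f = ∑' x, f.coeff x := by
  rw [aug, pair_apply]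
  simp

theorem mem_I0_iff_aug (f : EllOne G) : f ∈ I0 G ↔ aug G f = 0 := by
  rw [mem_I0, aug_apply]

theorem aug_delta (x : G) : aug G (EllOne.delta x) = 1 := pair_delta _ _ _ _

/-- The multiplication as a continuous bilinear map. -/
noncomputable def mulL (G : Type) [Group G] [DecidableEq G] :
    EllOne G →L[ℂ] EllOne G →L[ℂ] EllOne G := ContinuousLinearMap.mul ℂ (EllOne G)

theorem aug_mul (f h : EllOne G) : aug G (f * h) = aug G f * aug G h := by
  let A : EllOne G →L[ℂ] EllOne G →L[ℂ] ℂ :=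
    (ContinuousLinearMap.compL ℂ (EllOne G) (EllOne G) ℂ (aug G)).comp (mulL G)
  let B : EllOne G →L[ℂ] EllOne G →L[ℂ] ℂ :=
    ((ContinuousLinearMap.mul ℂ ℂ).flip.comp (aug G)).flip.comp (aug G)
  have hA : ∀ f h, A f h = aug G (f * h) := fun _ _ => rfl
  have hB : ∀ f h, B f h = aug G f * aug G h := fun _ _ => rfl
  have : A = B := by
    refine EllOne.clm_ext fun x => EllOne.clm_ext fun y => ?_
    refine (hA _ _).trans (Eq.trans ?_ (hB _ _).symm)
    rw [EllOne.delta_mul_delta, aug_delta, aug_delta, aug_delta, mul_one]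
  exact (hA f h).symm.trans ((congrArg (fun T => T f h) this).trans (hB f h))

theorem mul_mem_I0_left {f h : EllOne G} (hf : f ∈ I0 G) : f * h ∈ I0 G := by
  rw [mem_I0_iff_aug] at hf ⊢
  rw [aug_mul, hf, zero_mul]

theorem mul_mem_I0_right {f h : EllOne G} (hh : h ∈ I0 G) : f * h ∈ I0 G := by
  rw [mem_I0_iff_aug] at hh ⊢
  rw [aug_mul, hh, mul_zero]

theorem isClosed_I0 : IsClosed (I0 G : Set (EllOne G)) := by
  have : (I0 G : Set (EllOne G)) = (aug G) ⁻¹' {0} := by
    ext f
    exact mem_I0_iff_aug f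
  rw [this]
  exact isClosed_singleton.preimage (aug G).continuous

theorem delta_sub_mem_I0 (x y : G) : (EllOne.delta x - EllOne.delta y : EllOne G) ∈ I0 G := by
  rw [mem_I0_iff_aug, map_sub, aug_delta, aug_delta, sub_self]

end Pool.Agent.D0H82.AG
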