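import Mathlib

/-!
# Reduced words and cones in a free group
-/

set_option autoImplicit false

namespace Pool.Agent.D0H82.AG.Tree

open FreeGroup (mk reduce invRev)

variable {α : Type} [DecidableEq α]

theorem toWord_letter_mul (l : α × Bool) (g : FreeGroup α) :
    (mk [l] * g).toWord = if g.toWord.head? = some (l.1, !l.2) then g.toWord.tail
      else l :: g.toWord := by
  rw [FreeGroup.toWord_mul, FreeGroup.toWord_mk, FreeGroup.reduce_singleton,
    List.singleton_append, FreeGroup.reduce.cons, FreeGroup.reduce_toWord]
  cases h : g.toWord with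
  | nil => simp
  | cons hd tl =>
    obtain ⟨c, s⟩ := hd
    obtain ⟨a, b⟩ := l
    simp only [List.head?_cons, List.tail_cons, Option.some.injEq, Prod.mk.injEq]
    by_cases h2 : a = c
    · subst h2
      cases s <;> cases b <;> simp
    · have h3 : ¬ c = a := fun h => h2 h.symm
      simp [h2, h3]

theorem toWord_mul_of (u g : FreeGroup α)
    (h : ∀ a ∈ u.toWord.getLast?, ∀ b ∈ g.toWord.head?, a.1 = b.1 → a.2 = b.2) :
    (u * g).toWord = u.toWord ++ g.toWord := by
  rw [FreeGroup.toWord_mul]
  apply FreeGroup.IsReduced.reduce_eq
  unfold FreeGroup.IsReduced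
  rw [List.isChain_append]
  exact ⟨FreeGroup.isReduced_toWord, FreeGroup.isReduced_toWord, h⟩

/-- The elements whose last letter is not the inverse of `l`. -/
def B (l : α × Bool) : Set (FreeGroup α) := {u | u.toWord.getLast? ≠ some (l.1, !l.2)}

theorem mem_B (l : α × Bool) (u : FreeGroup α) :
    u ∈ B l ↔ u.toWord.getLast? ≠ some (l.1, !l.2) := Iff.rfl

theorem toWord_mul_of_mem {l : α × Bool} {u g : FreeGroup α} (hu : u ∈ B l)
    (hg : g.toWord.head? = some l) : (u * g).toWord = u.toWord ++ g.toWord := by
  refine toWord_mul_of u g fun a ha b hb hab => ?_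
  rw [Option.mem_def] at ha hb
  rw [hg, Option.some.injEq] at hb
  subst hb
  by_contra hcon
  apply hu
  rw [ha]
  have : a.2 = !l.2 := by
    cases h1 : a.2 <;> cases h2 : l.2 <;> simp_all
  rw [← hab, ← this]

theorem one_mem_B (l : α × Bool) : (1 : FreeGroup α) ∈ B l := by
  rw [mem_B, FreeGroup.toWord_one]
  simp

theorem inv_not_mem {l : α × Bool} {g : FreeGroup α} (hg : g.toWord.head? = some l) :
    g⁻¹ ∉ B l := by
  rw [mem_B, not_not, FreeGroup.toWord_inv, invRev, List.getLast?_reverse, List.head?_map, hg]
  rfl

theorem exists_head {g : FreeGroup α} (hg : g ≠ 1) : ∃ l, g.toWord.head? = some l := by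
  cases h : g.toWord with
  | nil => exact absurd (FreeGroup.toWord_eq_nil_iff.1 h) hg
  | cons hd tl => exact ⟨hd, rfl⟩

/-- Multiplying a long element on the left by a short one does not change its last letter. -/
theorem getLast_mul (L : List (α × Bool)) (g : FreeGroup α) (h : L.length < g.toWord.length) :
    (mk L * g).toWord.getLast? = g.toWord.getLast? ∧
      g.toWord.length ≤ (mk L * g).toWord.length + L.length := by
  induction L with
  | nil =>
    rw [← FreeGroup.one_eq_mk, one_mul]
    simp
  | cons l L ih =>
    have h1 : L.length < g.toWord.length := by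
      simp only [List.length_cons] at h
      omega
    obtain ⟨h2, h3⟩ := ih h1
    have h4 : mk (l :: L) * g = mk [l] * (mk L * g) := by
      rw [← mul_assoc, FreeGroup.mul_mk, List.singleton_append]
    set g' := mk L * g with hg'
    have h5 : 2 ≤ g'.toWord.length := by
      simp only [List.length_cons] at h
      omega
    rw [h4, toWord_letter_mul]
    cases hw : g'.toWord with
    | nil => rw [hw] at h5; simp at h5
    | cons a w =>
      rw [hw] at h2 h3 h5
      simp only [List.length_cons] at h3 h5
      have hw0 : w ≠ [] := by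
        rintro rfl
        simp at h5
      split_ifs
      · rw [List.tail_cons]
        refine ⟨?_, ?_⟩
        · rw [← h2, List.getLast?_cons_of_ne_nil hw0]
        · simp only [List.length_cons]
          omega
      · refine ⟨?_, ?_⟩
        · rw [List.getLast?_cons_of_ne_nil (by simp), h2]
        · simp only [List.length_cons]
          omega

theorem mul_mem_B_iff {l : α × Bool} {u g : FreeGroup α}
    (h : u.toWord.length < g.toWord.length) : u * g ∈ B l ↔ g ∈ B l := by
  have h1 := (getLast_mul u.toWord g h).1
  rw [FreeGroup.mk_toWord] at h1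
  rw [mem_B, mem_B, h1]

/-- Products of a nonempty reduced continuation. -/
theorem mul_mem_B {l l' : α × Bool} {u v : FreeGroup α} (hu : u ∈ B l)
    (hl' : u.toWord.head? = some l') (hv : v ∈ B l') :
    v * u ∈ B l ∧ (v * u).toWord.length = v.toWord.length + u.toWord.length := by
  have h1 := toWord_mul_of_mem hv hl'
  refine ⟨?_, ?_⟩
  · rw [mem_B, h1, List.getLast?_append]
    cases h2 : u.toWord.getLast? with
    | none =>
      rw [List.getLast?_eq_none_iff] at h2
      rw [h2] at hl'
      simp at hl'
    | some a =>
      rw [mem_B, h2] at hu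
      simpa using hu
  · rw [h1, List.length_append]

theorem finite_ball [Finite α] (R : ℕ) : {g : FreeGroup α | g.toWord.length ≤ R}.Finite :=
  (List.finite_length_le (α × Bool) R).preimage (FreeGroup.toWord_injective.injOn)

end Pool.Agent.D0H82.AG.Tree
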