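import Pool.Agent.D0H82.AG.Op
import Pool.Agent.D0H82.AG.Cone

/-!
# Exponential decay of minimal kernel vectors on free groups
-/

set_option autoImplicit false

namespace Pool.Agent.D0H82.AG.L2

open scoped InnerProductSpace ENNReal
open Filter Topology
open Pool.Agent.D0H82.AG.Tree

variable {ι α : Type} [Fintype ι] [DecidableEq ι] [DecidableEq α]

/-- The cones in `ι × F`. -/
def CB (ι : Type) {α : Type} [DecidableEq α] (l : α × Bool) : Set (ι × FreeGroup α) :=
  {p | p.2 ∈ B l}

omit [Fintype ι] [DecidableEq ι] in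
theorem mem_CB (l : α × Bool) (p : ι × FreeGroup α) : p ∈ CB ι l ↔ p.2 ∈ B l := Iff.rfl

omit [DecidableEq ι] in
theorem exists_radius (t : ι → (ι × FreeGroup α →₀ ℂ)) :
    ∃ R : ℕ, ∀ j, ∀ p ∈ (t j).support, p.2.toWord.length ≤ R := by
  refine ⟨∑ j, ∑ p ∈ (t j).support, p.2.toWord.length, fun j p hp => ?_⟩
  refine (Finset.single_le_sum (f := fun p : ι × FreeGroup α => p.2.toWord.length)
    (fun _ _ => Nat.zero_le _) hp).trans ?_
  exact Finset.single_le_sum (f := fun j => ∑ p ∈ (t j).support, p.2.toWord.length)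
    (fun _ _ => Nat.zero_le _) (Finset.mem_univ j)

/-- The minimal solutions on a cone. -/
noncomputable def V (t : ι → (ι × FreeGroup α →₀ ℂ)) (R : ℕ) (l : α × Bool) :
    Submodule ℂ (H (ι × FreeGroup α)) where
  carrier := {w | (∀ p, p ∉ CB ι l → w p = 0) ∧
    (∀ η : H (ι × FreeGroup α), op t η = 0 → (∀ p, p ∉ CB ι l → η p = 0) → ⟪η, w⟫_ℂ = 0) ∧
    ∀ j g, R < g.toWord.length → op t w (j, g) = 0}
  add_mem' := by
    rintro v w ⟨h1, h2, h3⟩ ⟨k1, k2, k3⟩
    refine ⟨fun p hp => ?_, fun η hη hη' => ?_, fun j g hg => ?_⟩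
    · rw [lp.coeFn_add, Pi.add_apply, h1 p hp, k1 p hp, add_zero]
    · rw [inner_add_right, h2 η hη hη', k2 η hη hη', add_zero]
    · rw [map_add, lp.coeFn_add, Pi.add_apply, h3 j g hg, k3 j g hg, add_zero]
  zero_mem' := by
    refine ⟨fun p _ => rfl, fun η _ _ => inner_zero_right _, fun j g _ => ?_⟩
    rw [map_zero]
    rfl
  smul_mem' := by
    rintro c w ⟨h1, h2, h3⟩
    refine ⟨fun p hp => ?_, fun η hη hη' => ?_, fun j g hg => ?_⟩
    · rw [lp.coeFn_smul, Pi.smul_apply, h1 p hp, smul_zero]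
    · rw [inner_smul_right, h2 η hη hη', mul_zero]
    · rw [map_smul, lp.coeFn_smul, Pi.smul_apply, h3 j g hg, smul_zero]

theorem mem_V (t : ι → (ι × FreeGroup α →₀ ℂ)) (R : ℕ) (l : α × Bool)
    (w : H (ι × FreeGroup α)) : w ∈ V t R l ↔ (∀ p, p ∉ CB ι l → w p = 0) ∧
    (∀ η : H (ι × FreeGroup α), op t η = 0 → (∀ p, p ∉ CB ι l → η p = 0) → ⟪η, w⟫_ℂ = 0) ∧
    ∀ j g, R < g.toWord.length → op t w (j, g) = 0 := Iff.rfl

theorem finiteDimensional_V [Finite α] (t : ι → (ι × FreeGroup α →₀ ℂ)) (R : ℕ)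
    (l : α × Bool) : FiniteDimensional ℂ (V t R l) := by
  set S : Set (ι × FreeGroup α) := {p | p.2.toWord.length ≤ R} with hS
  have hSf : S.Finite := by
    have h1 : S = Set.univ ×ˢ {g : FreeGroup α | g.toWord.length ≤ R} := by
      ext p
      simp [hS]
    rw [h1]
    exact Set.finite_univ.prod (finite_ball R)
  have : Finite S := hSf
  let Φ : V t R l →ₗ[ℂ] (S → ℂ) :=
    { toFun := fun w p => op t (w : H (ι × FreeGroup α)) p
      map_add' := by
        intro v w
        funext p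
        change op t ((v : H (ι × FreeGroup α)) + w) p = _
        rw [map_add]
        rfl
      map_smul' := by
        intro c w
        funext p
        change op t (c • (w : H (ι × FreeGroup α))) p = _
        rw [map_smul]
        rfl }
  refine FiniteDimensional.of_injective Φ ?_
  rw [← LinearMap.ker_eq_bot, LinearMap.ker_eq_bot']
  rintro ⟨w, hw⟩ h0
  have h1 : op t w = 0 := by
    ext p
    obtain ⟨j, g⟩ := p
    by_cases hg : g.toWord.length ≤ R
    · exact congrFun h0 ⟨(j, g), hg⟩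
    · exact hw.2.2 j g (not_le.1 hg)
  have h2 := hw.2.1 w h1 hw.1
  exact Subtype.ext (inner_self_eq_zero.1 h2)

theorem cut_mem_V {t : ι → (ι × FreeGroup α →₀ ℂ)} {R : ℕ}
    (hR : ∀ j, ∀ p ∈ (t j).support, p.2.toWord.length ≤ R) {i0 : ι}
    {ψ : H (ι × FreeGroup α)} (hψ : op t ψ = 0)
    (horth : ∀ η : H (ι × FreeGroup α), op t η = 0 → η (i0, 1) = 0 → ⟪η, ψ⟫_ℂ = 0)
    {l : α × Bool} {g : FreeGroup α} (hg : g.toWord.head? = some l) :
    ind (CB ι l) (rho ι g ψ) ∈ V t R l := by
  classical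
  rw [mem_V]
  refine ⟨fun p hp => ?_, fun η hη hη' => ?_, fun j g' hg' => ?_⟩
  · rw [ind_apply, if_neg hp]
  · rw [inner_ind_right _ _ _ hη']
    have h1 : ⟪η, rho ι g ψ⟫_ℂ = ⟪rho ι g⁻¹ η, ψ⟫_ℂ := by
      rw [inner_rho, inv_inv]
    rw [h1]
    apply horth
    · rw [op_eqv, hη, map_zero]
    · rw [rho_apply, one_mul]
      exact hη' _ (inv_not_mem hg)
  · rw [op_apply]
    have h2 : ∀ p ∈ (t j).support, t j p * ind (CB ι l) (rho ι g ψ) (p.1, p.2 * g') =
        (if g' ∈ B l then 1 else 0) * (t j p * rho ι g ψ (p.1, p.2 * g')) := by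
      intro p hp
      rw [ind_apply]
      have h3 : (p.1, p.2 * g') ∈ CB ι l ↔ g' ∈ B l := by
        rw [mem_CB]
        exact mul_mem_B_iff (lt_of_le_of_lt (hR j p hp) hg')
      by_cases h4 : g' ∈ B l
      · rw [if_pos (h3.2 h4), if_pos h4, one_mul]
      · rw [if_neg (fun h => h4 (h3.1 h)), if_neg h4, mul_zero, zero_mul]
    rw [Finset.sum_congr rfl h2, ← Finset.mul_sum, ← op_apply, op_eqv, hψ, map_zero]
    change _ * (0 : ℂ) = 0
    rw [mul_zero]

omit [Fintype ι] [DecidableEq ι] in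
theorem step {ψ : H (ι × FreeGroup α)} {M : ℕ} {l l' : α × Bool} {u g : FreeGroup α}
    (hu : u ∈ B l) (hl' : u.toWord.head? = some l') (hM : M ≤ u.toWord.length) :
    ‖ind (CB ι l') (rho ι (u * g) ψ)‖ ≤
      ‖ind {p : ι × FreeGroup α | M ≤ p.2.toWord.length} (ind (CB ι l) (rho ι g ψ))‖ := by
  classical
  refine le_of_sq_le_sq ?_ (norm_nonneg _)
  set W : H (ι × FreeGroup α) := ind {p : ι × FreeGroup α | M ≤ p.2.toWord.length}
    (ind (CB ι l) (rho ι g ψ)) with hW
  rw [norm_sq_ind, norm_sq W]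
  set σ : Equiv.Perm (ι × FreeGroup α) := Equiv.prodCongr (Equiv.refl ι) (Equiv.mulRight u)
  rw [← σ.tsum_eq (fun q => ‖W q‖ ^ 2)]
  refine (summable_ind _ _).tsum_le_tsum (fun p => ?_) (σ.summable_iff.2 (summable_sq W))
  have hσ : σ p = (p.1, p.2 * u) := rfl
  by_cases hp : p ∈ CB ι l'
  · obtain ⟨h1, h2⟩ := mul_mem_B hu hl' hp
    have h3 : σ p ∈ CB ι l := h1
    have h4 : σ p ∈ {p : ι × FreeGroup α | M ≤ p.2.toWord.length} := by
      change M ≤ (p.2 * u).toWord.length
      omega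
    rw [if_pos hp, hW, ind_apply, if_pos h4, ind_apply, if_pos h3, rho_apply, rho_apply, hσ,
      mul_assoc]
  · rw [if_neg hp]
    positivity

theorem exists_decay [Fintype α] (t : ι → (ι × FreeGroup α →₀ ℂ)) (i0 : ι)
    (ψ : H (ι × FreeGroup α)) (hψ : op t ψ = 0)
    (horth : ∀ η : H (ι × FreeGroup α), op t η = 0 → η (i0, 1) = 0 → ⟪η, ψ⟫_ℂ = 0) :
    ∃ M : ℕ, 0 < M ∧ ∀ (i : ι) (h : FreeGroup α),
      ‖ψ (i, h)‖ ≤ (1 / 2) ^ ((h.toWord.length - 1) / M) * ‖ψ‖ := by
  classical
  obtain ⟨R, hR⟩ := exists_radius t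
  set s : ℕ → Set (ι × FreeGroup α) := fun M => {p | M ≤ p.2.toWord.length} with hs
  have hanti : Antitone s := fun a b hab p hp => le_trans hab hp
  have htail : ∀ l : α × Bool, ∃ m, ∀ w ∈ V t R l, ‖ind (s m) w‖ ≤ 1 / 2 * ‖w‖ := by
    intro l
    have := finiteDimensional_V t R l
    exact exists_tail (V t R l) s hanti (fun p => ⟨p.2.toWord.length + 1, by
      simp [hs]⟩)
  choose m hm using htail
  set M : ℕ := 1 + ∑ l, m l with hMdef
  have hM0 : 0 < M := by omega
  have hMl : ∀ l, m l ≤ M := by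
    intro l
    have := Finset.single_le_sum (f := m) (fun _ _ => Nat.zero_le _) (Finset.mem_univ l)
    omega
  have hMt : ∀ l, ∀ w ∈ V t R l, ‖ind (s M) w‖ ≤ 1 / 2 * ‖w‖ := fun l w hw =>
    (norm_ind_mono (hanti (hMl l)) w).trans (hm l w hw)
  have main : ∀ (q : ℕ) (h : FreeGroup α) (l : α × Bool), h.toWord.head? = some l →
      1 + M * q ≤ h.toWord.length →
      ‖ind (CB ι l) (rho ι h ψ)‖ ≤ (1 / 2) ^ q * ‖ψ‖ := by
    intro q
    induction q with
    | zero =>
      intro h l _ _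
      rw [pow_zero, one_mul]
      refine (norm_ind_le _ _).trans (le_of_eq ?_)
      exact (rho ι h).norm_map ψ
    | succ q ih =>
      intro h l hl hq
      have hlen : 1 + M * q + M ≤ h.toWord.length := by
        rw [mul_add, mul_one] at hq
        omega
      set w1 := h.toWord.take M with hw1
      set w2 := h.toWord.drop M with hw2
      have hw : w1 ++ w2 = h.toWord := List.take_append_drop M _
      have hred : FreeGroup.IsReduced (w1 ++ w2) := by
        rw [hw]
        exact FreeGroup.isReduced_toWord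
      have hred' := hred
      unfold FreeGroup.IsReduced at hred'
      rw [List.isChain_append] at hred'
      obtain ⟨c1, c2, c3⟩ := hred'
      set u : FreeGroup α := FreeGroup.mk w1 with hu
      set g : FreeGroup α := FreeGroup.mk w2 with hg
      have hut : u.toWord = w1 := by
        rw [hu, FreeGroup.toWord_mk]
        exact FreeGroup.IsReduced.reduce_eq c1
      have hgt : g.toWord = w2 := by
        rw [hg, FreeGroup.toWord_mk]
        exact FreeGroup.IsReduced.reduce_eq c2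
      have hug : u * g = h := by
        rw [hu, hg, FreeGroup.mul_mk, hw, FreeGroup.mk_toWord]
      have hulen : u.toWord.length = M := by
        rw [hut, hw1, List.length_take]
        omega
      have hglen : 1 + M * q ≤ g.toWord.length := by
        rw [hgt, hw2, List.length_drop]
        omega
      have hg1 : g ≠ 1 := by
        intro h0
        rw [h0, FreeGroup.toWord_one] at hglen
        simp at hglen
      obtain ⟨l2, hl2⟩ := exists_head hg1
      have huB : u ∈ B l2 := by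
        rw [mem_B]
        intro h0
        rw [hut] at h0
        rw [hgt] at hl2
        have := c3 _ (Option.mem_def.2 h0) _ (Option.mem_def.2 hl2) rfl
        simp at this
      have hul : u.toWord.head? = some l := by
        rw [hut, hw1, List.head?_take, if_neg hM0.ne', hl]
      rw [← hug]
      calc ‖ind (CB ι l) (rho ι (u * g) ψ)‖
          ≤ ‖ind (s M) (ind (CB ι l2) (rho ι g ψ))‖ := step huB hul hulen.ge
        _ ≤ 1 / 2 * ‖ind (CB ι l2) (rho ι g ψ)‖ :=
            hMt l2 _ (cut_mem_V hR hψ horth hl2)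
        _ ≤ 1 / 2 * ((1 / 2) ^ q * ‖ψ‖) := by
            gcongr
            exact ih g l2 hl2 hglen
        _ = (1 / 2) ^ (q + 1) * ‖ψ‖ := by ring
  refine ⟨M, hM0, fun i h => ?_⟩
  by_cases h1 : h = 1
  · have h2 : h.toWord.length = 0 := by rw [h1, FreeGroup.toWord_one]; rfl
    rw [h2, Nat.zero_sub, Nat.zero_div, pow_zero, one_mul]
    exact lp.norm_apply_le_norm (by norm_num) ψ (i, h)
  · obtain ⟨l, hl⟩ := exists_head h1
    have h2 : 1 + M * ((h.toWord.length - 1) / M) ≤ h.toWord.length := by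
      have h3 := Nat.mul_div_le (h.toWord.length - 1) M
      have h4 : 0 < h.toWord.length := by
        rw [List.length_pos_iff]
        intro h5
        exact h1 (FreeGroup.toWord_eq_nil_iff.1 h5)
      omega
    refine le_trans ?_ (main _ h l hl h2)
    have h3 := lp.norm_apply_le_norm (p := 2) (by norm_num) (ind (CB ι l) (rho ι h ψ)) (i, 1)
    rw [ind_apply, if_pos (show (i, (1 : FreeGroup α)) ∈ CB ι l from one_mem_B l),
      rho_apply, one_mul] at h3
    exact h3

end Pool.Agent.D0H82.AG.L2
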