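import Pool.Agent.D0H82.AG.One

/-!
# The closed right ideal generated by at most one element
-/

set_option autoImplicit false

namespace Pool.Agent.D0H82.AG

open H937R3

variable {G : Type} [Group G] [DecidableEq G]

/-- The closure of `y * ℓ¹(G)`. -/
noncomputable def cl (y : EllOne G) : Submodule ℂ (EllOne G) :=
  (LinearMap.range (LinearMap.mulLeft ℂ y)).topologicalClosure

theorem cl_isClosedRightIdeal {y : EllOne G} (hy : y ∈ I0 G) : IsClosedRightIdeal (cl y) where
  le_I0 := by
    refine Submodule.topologicalClosure_minimal _ ?_ isClosed_I0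
    rintro _ ⟨f, rfl⟩
    exact mul_mem_I0_left hy
  isClosed := Submodule.isClosed_topologicalClosure _
  mul_mem := by
    intro f hf h _
    have hc : Continuous fun f : EllOne G => f * h := continuous_id.mul continuous_const
    have hm : Set.MapsTo (fun f : EllOne G => f * h)
        (LinearMap.range (LinearMap.mulLeft ℂ y) : Set (EllOne G))
        (LinearMap.range (LinearMap.mulLeft ℂ y) : Set (EllOne G)) := by
      rintro _ ⟨g, rfl⟩
      exact ⟨g * h, by simp [mul_assoc]⟩
    exact map_mem_closure (f := fun f : EllOne G => f * h) hc hf hm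

theorem self_mem_cl (y : EllOne G) : y ∈ cl y :=
  Submodule.le_topologicalClosure _ ⟨1, by simp⟩

theorem exists_near {y f : EllOne G} (hf : f ∈ cl y) {ε : ℝ} (hε : 0 < ε) :
    ∃ h : EllOne G, ‖f - y * h‖ < ε := by
  have hf' : f ∈ closure (LinearMap.range (LinearMap.mulLeft ℂ y) : Set (EllOne G)) := hf
  rw [Metric.mem_closure_iff] at hf'
  obtain ⟨_, ⟨h, rfl⟩, hh⟩ := hf' ε hε
  refine ⟨h, ?_⟩
  rw [dist_eq_norm] at hh
  exact hh

theorem exists_le_cl {k : ℕ} (hk : k ≤ 1) {x : Fin k → EllOne G} (hx : ∀ i, x i ∈ I0 G)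
    {J : Submodule ℂ (EllOne G)} (hJ : IsGeneratedBy J x) : ∃ y ∈ I0 G, J ≤ cl y := by
  rcases Nat.le_one_iff_eq_zero_or_eq_one.1 hk with rfl | rfl
  · exact ⟨0, Submodule.zero_mem _, hJ.2.2 _ (cl_isClosedRightIdeal (Submodule.zero_mem _))
      (fun i => i.elim0)⟩
  · refine ⟨x 0, hx 0, hJ.2.2 _ (cl_isClosedRightIdeal (hx 0)) (fun i => ?_)⟩
    rw [Subsingleton.elim i 0]
    exact self_mem_cl _

end Pool.Agent.D0H82.AG
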