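import Mathlib

/-!
# Equivariant operators on `ℓ²(ι × G)`: trace and kernels
-/

set_option autoImplicit false

namespace Pool.Agent.D0H82.AG.L2

open scoped InnerProductSpace ENNReal
open Filter Topology

/-- Square summable functions. -/
noncomputable abbrev H (X : Type) := lp (fun _ : X => ℂ) 2

section basic

variable {X : Type}

theorem two_pos' : 0 < (2 : ℝ≥0∞).toReal := by norm_num

theorem memH_iff (f : X → ℂ) : Memℓp f 2 ↔ Summable (fun x => ‖f x‖ ^ 2) := by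
  rw [memℓp_gen_iff two_pos']
  norm_num

theorem norm_sq (f : H X) : ‖f‖ ^ 2 = ∑' x, ‖f x‖ ^ 2 := by
  have := lp.norm_rpow_eq_tsum two_pos' f
  norm_num at this
  exact this

theorem summable_sq (f : H X) : Summable fun x => ‖f x‖ ^ 2 := (memH_iff _).1 (lp.memℓp f)

/-- Composition with a permutation, a linear isometry. -/
noncomputable def tr (σ : Equiv.Perm X) : H X →ₗᵢ[ℂ] H X where
  toFun f := ⟨fun x => f (σ x), by
    have h := (memH_iff _).1 (lp.memℓp f)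
    exact (memH_iff _).2 ((σ.summable_iff (f := fun x => ‖f x‖ ^ 2)).2 h)⟩
  map_add' f g := by ext x; rfl
  map_smul' c f := by ext x; rfl
  norm_map' f := by
    have h : ∀ g : H X, ‖g‖ = Real.sqrt (∑' x, ‖g x‖ ^ 2) := fun g => by
      rw [← norm_sq, Real.sqrt_sq (norm_nonneg _)]
    rw [h, h]
    congr 1
    exact σ.tsum_eq (fun x => ‖f x‖ ^ 2)

theorem tr_apply (σ : Equiv.Perm X) (f : H X) (x : X) : tr σ f x = f (σ x) := rfl

/-- The unit vectors. -/
noncomputable def dl [DecidableEq X] (p : X) : H X := lp.single 2 p 1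

theorem dl_apply [DecidableEq X] (p q : X) : (dl p : H X) q = if q = p then 1 else 0 := by
  unfold dl
  rw [lp.single_apply]
  by_cases h : q = p
  · subst h; simp
  · simp [h]

theorem inner_dl_left [DecidableEq X] (p : X) (f : H X) : ⟪dl p, f⟫_ℂ = f p := by
  rw [dl, lp.inner_single_left]
  simp

theorem norm_dl [DecidableEq X] (p : X) : ‖(dl p : H X)‖ = 1 := by
  rw [dl, lp.norm_single (by norm_num)]
  simp

theorem hasSum_apply [DecidableEq X] (A : H X →L[ℂ] H X) (f : H X) (q : X) :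
    HasSum (fun p => f p * A (dl p) q) (A f q) := by
  have h1 := lp.hasSum_single (E := fun _ : X => ℂ) (p := 2) (by norm_num) f
  have h2 := h1.mapL A
  have h3 := h2.mapL (lp.evalCLM ℂ (fun _ : X => ℂ) 2 q)
  have h4 : (fun p => (lp.evalCLM ℂ (fun _ : X => ℂ) 2 q) (A (lp.single 2 p (f p)))) =
      fun p => f p * A (dl p) q := by
    funext p
    have : (lp.single 2 p (f p) : H X) = f p • dl p := by
      rw [dl, ← lp.single_smul]
      simp
    rw [this, map_smul, map_smul]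
    rfl
  rw [h4] at h3
  exact h3

end basic

section equivariant

variable {ι G : Type} [Group G]

/-- Right translation on `ℓ²(ι × G)`. -/
noncomputable def rho (ι : Type) (h : G) : H (ι × G) →ₗᵢ[ℂ] H (ι × G) :=
  tr (Equiv.prodCongr (Equiv.refl ι) (Equiv.mulRight h))

theorem rho_apply (h : G) (f : H (ι × G)) (p : ι × G) : rho ι h f p = f (p.1, p.2 * h) := rfl

theorem rho_rho (h k : G) (f : H (ι × G)) : rho ι h (rho ι k f) = rho ι (h * k) f := by
  ext p
  rw [rho_apply, rho_apply, rho_apply]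
  simp [mul_assoc]

theorem rho_one (f : H (ι × G)) : rho ι (1 : G) f = f := by
  ext p
  rw [rho_apply]
  simp

theorem rho_dl [DecidableEq ι] [DecidableEq G] (h : G) (p : ι × G) :
    rho ι h (dl p) = dl (p.1, p.2 * h⁻¹) := by
  ext q
  rw [rho_apply, dl_apply, dl_apply]
  obtain ⟨i, u⟩ := p
  obtain ⟨j, v⟩ := q
  simp only [Prod.mk.injEq]
  congr 1
  rw [eq_iff_iff]
  constructor
  · rintro ⟨rfl, rfl⟩
    exact ⟨rfl, by group⟩
  · rintro ⟨rfl, rfl⟩
    exact ⟨rfl, by group⟩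

theorem inner_rho (h : G) (f g : H (ι × G)) :
    ⟪rho ι h f, g⟫_ℂ = ⟪f, rho ι h⁻¹ g⟫_ℂ := by
  have h1 : g = rho ι h (rho ι h⁻¹ g) := by
    rw [rho_rho, mul_inv_cancel, rho_one]
  conv_lhs => rw [h1]
  exact (rho ι h).inner_map_map _ _

/-- Operators commuting with right translations. -/
def Eqv (A : H (ι × G) →L[ℂ] H (ι × G)) : Prop :=
  ∀ (h : G) (f : H (ι × G)), A (rho ι h f) = rho ι h (A f)

theorem Eqv.mul {A B : H (ι × G) →L[ℂ] H (ι × G)} (hA : Eqv A) (hB : Eqv B) : Eqv (A * B) := by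
  intro h f
  change A (B (rho ι h f)) = rho ι h (A (B f))
  rw [hB, hA]

theorem Eqv.one : Eqv (1 : H (ι × G) →L[ℂ] H (ι × G)) := fun _ _ => rfl

theorem Eqv.sub {A B : H (ι × G) →L[ℂ] H (ι × G)} (hA : Eqv A) (hB : Eqv B) : Eqv (A - B) := by
  intro h f
  change A (rho ι h f) - B (rho ι h f) = rho ι h (A f - B f)
  rw [hB, hA, map_sub]

theorem Eqv.smul {A : H (ι × G) →L[ℂ] H (ι × G)} (hA : Eqv A) (c : ℂ) : Eqv (c • A) := by
  intro h f
  change c • A (rho ι h f) = rho ι h (c • A f)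
  rw [hA, map_smul]

theorem Eqv.pow {A : H (ι × G) →L[ℂ] H (ι × G)} (hA : Eqv A) (m : ℕ) : Eqv (A ^ m) := by
  induction m with
  | zero => rw [pow_zero]; exact Eqv.one
  | succ m ih => rw [pow_succ]; exact ih.mul hA

theorem Eqv.adjoint {A : H (ι × G) →L[ℂ] H (ι × G)} (hA : Eqv A) :
    Eqv (ContinuousLinearMap.adjoint A) := by
  intro h f
  refine ext_inner_right ℂ fun g => ?_
  rw [ContinuousLinearMap.adjoint_inner_left, inner_rho, inner_rho,
    ContinuousLinearMap.adjoint_inner_left, hA]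

variable [Fintype ι] [DecidableEq ι] [DecidableEq G]

/-- The trace. -/
noncomputable def tau (A : H (ι × G) →L[ℂ] H (ι × G)) : ℂ := ∑ i, A (dl (i, 1)) (i, 1)

theorem tau_sub (A B : H (ι × G) →L[ℂ] H (ι × G)) : tau (A - B) = tau A - tau B := by
  unfold tau
  rw [← Finset.sum_sub_distrib]
  rfl

theorem tau_smul (c : ℂ) (A : H (ι × G) →L[ℂ] H (ι × G)) : tau (c • A) = c * tau A := by
  unfold tau
  rw [Finset.mul_sum]
  rfl

theorem tau_mul (A B : H (ι × G) →L[ℂ] H (ι × G)) (hA : Eqv A) :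
    tau (A * B) = ∑ i, ∑ j, ∑' h, B (dl (i, 1)) (j, h) * A (dl (j, 1)) (i, h⁻¹) := by
  unfold tau
  refine Finset.sum_congr rfl fun i _ => ?_
  have h1 := hasSum_apply A (B (dl (i, 1))) (i, 1)
  have h2 : ∀ p : ι × G, A (dl p) (i, 1) = A (dl (p.1, 1)) (i, p.2⁻¹) := by
    intro p
    have : dl p = rho ι p.2⁻¹ (dl (p.1, 1)) := by
      rw [rho_dl]
      simp
    rw [this, hA, rho_apply]
    simp
  simp only [h2] at h1
  change A (B (dl (i, 1))) (i, 1) = _
  rw [← h1.tsum_eq, h1.summable.tsum_prod, tsum_fintype]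

theorem tau_comm (A B : H (ι × G) →L[ℂ] H (ι × G)) (hA : Eqv A) (hB : Eqv B) :
    tau (A * B) = tau (B * A) := by
  rw [tau_mul A B hA, tau_mul B A hB, Finset.sum_comm]
  refine Finset.sum_congr rfl fun j _ => Finset.sum_congr rfl fun i _ => ?_
  rw [← (Equiv.inv G).tsum_eq]
  refine tsum_congr fun h => ?_
  simp [mul_comm]

/-- The contraction `1 - S† S / c`. -/
noncomputable def U (c : ℝ) (S : H (ι × G) →L[ℂ] H (ι × G)) : H (ι × G) →L[ℂ] H (ι × G) :=
  1 - (c⁻¹ : ℂ) • (ContinuousLinearMap.adjoint S * S)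

omit [Fintype ι] [DecidableEq ι] [DecidableEq G] [Group G] in
theorem U_apply (c : ℝ) (S : H (ι × G) →L[ℂ] H (ι × G)) (f : H (ι × G)) :
    U c S f = f - (c⁻¹ : ℂ) • ContinuousLinearMap.adjoint S (S f) := rfl

omit [Fintype ι] [DecidableEq ι] [DecidableEq G] [Group G] in
theorem inner_adj (S : H (ι × G) →L[ℂ] H (ι × G)) (f : H (ι × G)) :
    ⟪f, ContinuousLinearMap.adjoint S (S f)⟫_ℂ = (‖S f‖ ^ 2 : ℝ) := by
  rw [ContinuousLinearMap.adjoint_inner_right, inner_self_eq_norm_sq_to_K]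
  simp

omit [Fintype ι] [DecidableEq ι] [DecidableEq G] [Group G] in
theorem norm_U_le {c : ℝ} (hc : 0 < c) (S : H (ι × G) →L[ℂ] H (ι × G)) (hS : ‖S‖ ^ 2 ≤ c) :
    ‖U c S‖ ≤ 1 := by
  refine ContinuousLinearMap.opNorm_le_bound _ zero_le_one fun f => ?_
  rw [one_mul]
  refine le_of_sq_le_sq ?_ (norm_nonneg _)
  rw [U_apply, norm_sub_sq (𝕜 := ℂ), inner_smul_right, inner_adj]
  have h1 : ‖(c⁻¹ : ℂ) • ContinuousLinearMap.adjoint S (S f)‖ ^ 2 ≤ c⁻¹ * ‖S f‖ ^ 2 := by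
    rw [norm_smul, mul_pow]
    have h2 : ‖(c⁻¹ : ℂ)‖ = c⁻¹ := by
      rw [norm_inv, Complex.norm_real, Real.norm_eq_abs, abs_of_pos hc]
    have h3 : ‖ContinuousLinearMap.adjoint S (S f)‖ ≤ ‖S‖ * ‖S f‖ := by
      have := (ContinuousLinearMap.adjoint S).le_opNorm (S f)
      rwa [LinearIsometryEquiv.norm_map] at this
    rw [h2]
    calc c⁻¹ ^ 2 * ‖ContinuousLinearMap.adjoint S (S f)‖ ^ 2
        ≤ c⁻¹ ^ 2 * (‖S‖ * ‖S f‖) ^ 2 := by gcongr
      _ = c⁻¹ ^ 2 * ‖S‖ ^ 2 * ‖S f‖ ^ 2 := by ring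
      _ ≤ c⁻¹ ^ 2 * c * ‖S f‖ ^ 2 := by gcongr
      _ = c⁻¹ * ‖S f‖ ^ 2 := by field_simp
  have h4 : RCLike.re ((c⁻¹ : ℂ) * ((‖S f‖ ^ 2 : ℝ) : ℂ)) = c⁻¹ * ‖S f‖ ^ 2 := by
    rw [← Complex.ofReal_inv, ← Complex.ofReal_mul]
    exact Complex.ofReal_re _
  rw [h4]
  have h5 : 0 ≤ c⁻¹ * ‖S f‖ ^ 2 := by positivity
  linarith

omit [Fintype ι] [DecidableEq ι] [DecidableEq G] [Group G] in
theorem U_fixed {c : ℝ} (hc : 0 < c) (S : H (ι × G) →L[ℂ] H (ι × G)) (f : H (ι × G)) :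
    U c S f = f ↔ S f = 0 := by
  rw [U_apply]
  constructor
  · intro h
    have h1 : (c⁻¹ : ℂ) • ContinuousLinearMap.adjoint S (S f) = 0 := by
      have := sub_eq_self.1 h
      exact this
    have h2 : ContinuousLinearMap.adjoint S (S f) = 0 := by
      rcases smul_eq_zero.1 h1 with h | h
      · exfalso
        rw [inv_eq_zero] at h
        exact hc.ne' (by exact_mod_cast h)
      · exact h
    have h3 := inner_adj S f
    rw [h2, inner_zero_right] at h3
    have h4 : ‖S f‖ ^ 2 = 0 := by exact_mod_cast h3.symm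
    exact norm_eq_zero.1 (by simpa using h4)
  · intro h
    rw [h, map_zero, smul_zero, sub_zero]

theorem tau_U_pow {c : ℝ} (S : H (ι × G) →L[ℂ] H (ι × G)) (hS : Eqv S) (m : ℕ) :
    tau (U c S ^ m) = tau (U c (ContinuousLinearMap.adjoint S) ^ m) := by
  set T := ContinuousLinearMap.adjoint S with hT
  have hTS : ContinuousLinearMap.adjoint T = S := ContinuousLinearMap.adjoint_adjoint S
  have hTe : Eqv T := hS.adjoint
  set V := U c S with hV
  set W := U c T with hW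
  have hVd : V = 1 - (c⁻¹ : ℂ) • (T * S) := rfl
  have hWd : W = 1 - (c⁻¹ : ℂ) • (S * T) := by rw [hW, U, hTS]
  have hVe : Eqv V := Eqv.one.sub ((hTe.mul hS).smul _)
  have hWe : Eqv W := by
    rw [hWd]
    exact Eqv.one.sub ((hS.mul hTe).smul _)
  have hint : S * V = W * S := by
    rw [hVd, hWd, mul_sub, sub_mul, mul_one, one_mul, mul_smul_comm, smul_mul_assoc, mul_assoc]
  have hint2 : ∀ m : ℕ, S * V ^ m = W ^ m * S := by
    intro m
    induction m with
    | zero => rw [pow_zero, pow_zero, mul_one, one_mul]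
    | succ m ih => rw [pow_succ, ← mul_assoc, ih, mul_assoc, hint, ← mul_assoc, pow_succ]
  induction m with
  | zero => rw [pow_zero, pow_zero]
  | succ m ih =>
    have e1 : V ^ (m + 1) = V ^ m - (c⁻¹ : ℂ) • (T * (W ^ m * S)) := by
      rw [pow_succ', ← hint2 m]
      nth_rewrite 1 [hVd]
      rw [sub_mul, one_mul, smul_mul_assoc, mul_assoc]
    have e2 : W ^ (m + 1) = W ^ m - (c⁻¹ : ℂ) • ((W ^ m * S) * T) := by
      rw [pow_succ]
      nth_rewrite 2 [hWd]
      rw [mul_sub, mul_one, mul_smul_comm, mul_assoc]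
    rw [e1, e2, tau_sub, tau_sub, tau_smul, tau_smul, ih,
      tau_comm T (W ^ m * S) hTe ((hWe.pow m).mul hS)]

/-- Projection onto the fixed vectors of `U c S`. -/
noncomputable def PU (c : ℝ) (S : H (ι × G) →L[ℂ] H (ι × G)) (f : H (ι × G)) : H (ι × G) :=
  ((U c S).eqLocus (1 : H (ι × G) →L[ℂ] H (ι × G))).orthogonalProjectionOnto f

theorem tendsto_tau {c : ℝ} (hc : 0 < c) (S : H (ι × G) →L[ℂ] H (ι × G)) (hS : ‖S‖ ^ 2 ≤ c) :
    Tendsto (fun N : ℕ => (N : ℂ)⁻¹ * ∑ m ∈ Finset.range N, tau (U c S ^ m)) atTop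
      (𝓝 (∑ i, PU c S (dl (i, 1)) (i, 1))) := by
  have h1 : ∀ i : ι, Tendsto (fun N : ℕ =>
      (birkhoffAverage ℂ (U c S) _root_.id N (dl (i, 1)) : H (ι × G)) (i, 1)) atTop
      (𝓝 (PU c S (dl (i, 1)) (i, 1))) := by
    intro i
    have := (U c S).tendsto_birkhoffAverage_orthogonalProjection (norm_U_le hc S hS) (dl (i, 1))
    exact ((lp.evalCLM ℂ (fun _ : ι × G => ℂ) 2 (i, 1)).continuous.tendsto _).comp this
  have h2 := tendsto_finsetSum Finset.univ fun i _ => h1 i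
  refine h2.congr fun N => ?_
  have h3 : ∀ (m : ℕ) (f : H (ι × G)), (U c S)^[m] f = (U c S ^ m) f := by
    intro m
    induction m with
    | zero => intro f; rfl
    | succ m ih =>
      intro f
      rw [Function.iterate_succ_apply', ih, pow_succ']
      rfl
  unfold tau
  rw [Finset.sum_comm, Finset.mul_sum]
  refine Finset.sum_congr rfl fun i _ => ?_
  unfold birkhoffAverage birkhoffSum
  rw [lp.coeFn_smul, Pi.smul_apply, smul_eq_mul, lp.coeFn_sum, Finset.sum_apply]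
  congr 1
  refine Finset.sum_congr rfl fun m _ => ?_
  rw [h3]
  rfl

omit [Fintype ι] in
theorem PU_apply_self (c : ℝ) (S : H (ι × G) →L[ℂ] H (ι × G)) (p : ι × G) :
    PU c S (dl p) p = ((‖PU c S (dl p)‖ ^ 2 : ℝ) : ℂ) := by
  rw [← inner_dl_left, PU]
  have h := Submodule.inner_orthogonalProjectionOnto_eq_of_mem_right
    (((U c S).eqLocus (1 : H (ι × G) →L[ℂ] H (ι × G))).orthogonalProjectionOnto (dl p)) (dl p)
  rw [← h, inner_self_eq_norm_sq_to_K, Complex.ofReal_pow]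
  rfl

omit [Fintype ι] [DecidableEq ι] [DecidableEq G] [Group G] in
theorem PU_mem {c : ℝ} (hc : 0 < c) (S : H (ι × G) →L[ℂ] H (ι × G)) (f : H (ι × G)) :
    S (PU c S f) = 0 := by
  rw [← U_fixed hc S]
  exact (((U c S).eqLocus (1 : H (ι × G) →L[ℂ] H (ι × G))).orthogonalProjectionOnto f).2

omit [Fintype ι] [DecidableEq ι] [DecidableEq G] [Group G] in
theorem inner_PU {c : ℝ} (hc : 0 < c) (S : H (ι × G) →L[ℂ] H (ι × G)) (f η : H (ι × G))
    (hη : S η = 0) : ⟪η, PU c S f⟫_ℂ = ⟪η, f⟫_ℂ := by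
  have hm : η ∈ (U c S).eqLocus (1 : H (ι × G) →L[ℂ] H (ι × G)) := (U_fixed hc S η).2 hη
  exact Submodule.inner_orthogonalProjectionOnto_eq_of_mem_left
    (⟨η, hm⟩ : (U c S).eqLocus (1 : H (ι × G) →L[ℂ] H (ι × G))) f

/-- An equivariant operator which misses one coordinate has a kernel; the kernel contains a
nonzero vector orthogonal to all kernel vectors which vanish at some point `(i, 1)`. -/
theorem exists_kernel (T : H (ι × G) →L[ℂ] H (ι × G)) (hT : Eqv T) (j0 : ι)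
    (h0 : ∀ (f : H (ι × G)) (g : G), T f (j0, g) = 0) :
    ∃ (i : ι) (ψ : H (ι × G)), ψ ≠ 0 ∧ T ψ = 0 ∧
      ∀ η : H (ι × G), T η = 0 → η (i, 1) = 0 → ⟪η, ψ⟫_ℂ = 0 := by
  set c : ℝ := ‖T‖ ^ 2 + 1 with hcdef
  have hc : 0 < c := by positivity
  set S := ContinuousLinearMap.adjoint T with hS
  have hTc : ‖T‖ ^ 2 ≤ c := by rw [hcdef]; linarith
  have hSc : ‖S‖ ^ 2 ≤ c := by
    rw [hS, LinearIsometryEquiv.norm_map]
    exact hTc
  have h1 := tendsto_tau hc T hTc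
  have h2 := tendsto_tau hc S hSc
  have h3 : (fun N : ℕ => (N : ℂ)⁻¹ * ∑ m ∈ Finset.range N, tau (U c T ^ m)) =
      fun N : ℕ => (N : ℂ)⁻¹ * ∑ m ∈ Finset.range N, tau (U c S ^ m) := by
    funext N
    congr 1
    exact Finset.sum_congr rfl fun m _ => tau_U_pow T hT m
  rw [h3] at h1
  have h4 := tendsto_nhds_unique h1 h2
  simp only [PU_apply_self] at h4
  rw [← Complex.ofReal_sum, ← Complex.ofReal_sum] at h4
  have h5 : ∑ i, ‖PU c T (dl (i, 1))‖ ^ 2 = ∑ i, ‖PU c S (dl (i, (1 : G)))‖ ^ 2 := by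
    exact_mod_cast h4
  -- the vector at `j0` is in the kernel of the adjoint
  have h6 : S (dl (j0, 1)) = 0 := by
    refine ext_inner_right ℂ fun g => ?_
    rw [hS, ContinuousLinearMap.adjoint_inner_left, inner_dl_left, h0, inner_zero_left]
  have h7 : ‖PU c S (dl (j0, (1 : G)))‖ ^ 2 = 1 := by
    have h8 := inner_PU hc S (dl (j0, (1 : G))) (dl (j0, (1 : G))) h6
    rw [inner_dl_left, PU_apply_self, inner_dl_left, dl_apply, if_pos rfl] at h8
    exact_mod_cast h8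
  have h9 : (1 : ℝ) ≤ ∑ i, ‖PU c T (dl (i, (1 : G)))‖ ^ 2 := by
    rw [h5, ← h7]
    exact Finset.single_le_sum (f := fun i => ‖PU c S (dl (i, (1 : G)))‖ ^ 2)
      (fun i _ => sq_nonneg _) (Finset.mem_univ j0)
  obtain ⟨i, _, hi⟩ : ∃ i ∈ (Finset.univ : Finset ι), ‖PU c T (dl (i, (1 : G)))‖ ^ 2 ≠ 0 := by
    by_contra hcon
    push Not at hcon
    rw [Finset.sum_eq_zero hcon] at h9
    norm_num at h9
  refine ⟨i, PU c T (dl (i, 1)), ?_, PU_mem hc T _, ?_⟩
  · intro h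
    rw [h, norm_zero] at hi
    exact hi (by norm_num)
  · intro η hη hη1
    rw [inner_PU hc T _ _ hη, ← inner_conj_symm, inner_dl_left, hη1, map_zero]

end equivariant

end Pool.Agent.D0H82.AG.L2
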