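import Pool.Agent.D0H82.AG.Basic
import Pool.Agent.Results.MP_11aa79_an.ProductsNotDense

/-!
# One generator is not enough: the core estimate
-/

set_option autoImplicit false

namespace Pool.Agent.D0H82.AG

open H937R3

section push

variable {G Q : Type} [Group G] [DecidableEq G] [Group Q] [DecidableEq Q]

/-- Push-forward of `ℓ¹` functions along a homomorphism. -/
noncomputable def push (φ : G →* Q) : EllOne G →L[ℂ] EllOne Q :=
  EllOne.lift (fun g => EllOne.delta (φ g)) 1 (fun g => (EllOne.norm_delta (φ g)).le)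

theorem push_delta (φ : G →* Q) (g : G) : push φ (EllOne.delta g) = EllOne.delta (φ g) :=
  EllOne.lift_delta _ _ _ g

theorem norm_push_le (φ : G →* Q) (f : EllOne G) : ‖push φ f‖ ≤ ‖f‖ := by
  have h := L1.lift_bound (G := G) (fun g => (L1.delta (φ g) : L1 Q)) 1
    (fun g => (L1.norm_delta (φ g)).le) f
  rw [one_mul] at h
  exact h

theorem push_mul (φ : G →* Q) (f h : EllOne G) : push φ (f * h) = push φ f * push φ h := by
  let A : EllOne G →L[ℂ] EllOne G →L[ℂ] EllOne Q :=
    (ContinuousLinearMap.compL ℂ (EllOne G) (EllOne G) (EllOne Q) (push φ)).comp (mulL G)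
  let B : EllOne G →L[ℂ] EllOne G →L[ℂ] EllOne Q :=
    ((mulL Q).flip.comp (push φ)).flip.comp (push φ)
  have hA : ∀ f h, A f h = push φ (f * h) := fun _ _ => rfl
  have hB : ∀ f h, B f h = push φ f * push φ h := fun _ _ => rfl
  have : A = B := by
    refine EllOne.clm_ext fun x => EllOne.clm_ext fun y => ?_
    refine (hA _ _).trans (Eq.trans ?_ (hB _ _).symm)
    rw [EllOne.delta_mul_delta, push_delta, push_delta, push_delta, EllOne.delta_mul_delta,
      map_mul]
  exact (hA f h).symm.trans ((congrArg (fun T => T f h) this).trans (hB f h))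

theorem aug_push (φ : G →* Q) (f : EllOne G) : aug Q (push φ f) = aug G f := by
  have : (aug Q).comp (push φ) = aug G := by
    refine EllOne.clm_ext fun x => ?_
    change aug Q (push φ (EllOne.delta x)) = _
    rw [push_delta, aug_delta, aug_delta]
  exact congrArg (fun T => T f) this

end push

open FreeGroup (of)

theorem norm_pow_delta_le {G : Type} [Group G] [DecidableEq G] (x : G) (j : ℕ) :
    ‖(EllOne.delta x : EllOne G) ^ j‖ ≤ 1 := by
  have : (EllOne.delta x : EllOne G) ^ j = EllOne.delta (x ^ j) := by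
    induction j with
    | zero => simp [EllOne.one_def]
    | succ j ih => rw [pow_succ, ih, EllOne.delta_mul_delta, pow_succ]
  rw [this, EllOne.norm_delta]

/-- The averages `u = (1 + x + ... + x ^ (m - 1)) / m`. -/
noncomputable def av {G : Type} [Group G] [DecidableEq G] (x : G) (m : ℕ) : EllOne G :=
  (1 / m : ℂ) • ∑ j ∈ Finset.range m, (EllOne.delta x : EllOne G) ^ j

theorem norm_av_le {G : Type} [Group G] [DecidableEq G] (x : G) {m : ℕ} (hm : 0 < m) :
    ‖av x m‖ ≤ 1 := by
  have hm' : (0 : ℝ) < m := by exact_mod_cast hm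
  have h1 : ‖∑ j ∈ Finset.range m, (EllOne.delta x : EllOne G) ^ j‖ ≤ m := by
    refine (norm_sum_le _ _).trans ?_
    refine (Finset.sum_le_sum fun j _ => norm_pow_delta_le x j).trans ?_
    simp
  calc ‖av x m‖ ≤ ‖(1 / m : ℂ)‖ * ‖∑ j ∈ Finset.range m, (EllOne.delta x : EllOne G) ^ j‖ :=
        EllOne.norm_smul_le' _ _
    _ ≤ (1 / m) * m := by
        rw [norm_div, norm_one, Complex.norm_natCast]
        gcongr
    _ = 1 := by field_simp

theorem norm_mul_av_le {G : Type} [Group G] [DecidableEq G] (x : G) {m : ℕ} (hm : 0 < m) :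
    ‖(1 - EllOne.delta x) * av x m‖ ≤ 2 / m := by
  have hm' : (0 : ℝ) < m := by exact_mod_cast hm
  have h1 : (1 - EllOne.delta x) * av x m = (1 / m : ℂ) • (1 - (EllOne.delta x : EllOne G) ^ m) := by
    rw [av, mul_smul_comm, mul_neg_geom_sum]
  rw [h1]
  calc ‖(1 / m : ℂ) • (1 - (EllOne.delta x : EllOne G) ^ m)‖
      ≤ ‖(1 / m : ℂ)‖ * ‖(1 - (EllOne.delta x : EllOne G) ^ m)‖ := EllOne.norm_smul_le' _ _
    _ ≤ (1 / m) * 2 := by
        rw [norm_div, norm_one, Complex.norm_natCast]
        gcongr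
        refine (norm_sub_le _ _).trans ?_
        have h2 : ‖(1 : EllOne G)‖ = 1 := by rw [EllOne.one_def, EllOne.norm_delta]
        have h3 := norm_pow_delta_le x m
        linarith
    _ = 2 / m := by ring

theorem aug_one {G : Type} [Group G] [DecidableEq G] : aug G (1 : EllOne G) = 1 := by
  rw [EllOne.one_def, aug_delta]

theorem aug_av {G : Type} [Group G] [DecidableEq G] (x : G) {m : ℕ} (hm : 0 < m) :
    aug G (av x m) = 1 := by
  have hm' : (m : ℂ) ≠ 0 := by exact_mod_cast hm.ne'
  have h1 : ∀ j, aug G ((EllOne.delta x : EllOne G) ^ j) = 1 := by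
    intro j
    induction j with
    | zero => rw [pow_zero, aug_one]
    | succ j ih => rw [pow_succ, aug_mul, ih, aug_delta, mul_one]
  rw [av, map_smul, map_sum]
  simp only [h1]
  rw [Finset.sum_const, Finset.card_range, nsmul_eq_mul, mul_one, smul_eq_mul]
  field_simp

open Pool.Agent.Results.MP_11aa79_an

/-- The core estimate in rank two. -/
theorem core_two (x fa fb : EllOne (FreeGroup (Fin 2))) (hx : x ∈ I0 (FreeGroup (Fin 2)))
    (ha : ‖(EllOne.delta (of 0) - 1 : EllOne (FreeGroup (Fin 2))) - x * fa‖ ≤ 1 / 25000)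
    (hb : ‖(EllOne.delta (of 1) - 1 : EllOne (FreeGroup (Fin 2))) - x * fb‖ ≤ 1 / 25000) :
    False := by
  set A : ℂ := (2 + Complex.I) / 4 with hA
  set B : ℂ := (2 - Complex.I) / 4 with hB
  have hAB : A + B = 1 := by rw [hA, hB]; ring
  have h5 : Real.sqrt 5 / 4 ≤ 14 / 25 := by
    have : Real.sqrt 5 ≤ 56 / 25 := by
      rw [Real.sqrt_le_left (by norm_num)]
      norm_num
    linarith
  have hnA : ‖A‖ ≤ 14 / 25 := by rw [hA, ProductsNotDense.norm_A]; exact h5
  have hnB : ‖B‖ ≤ 14 / 25 := by rw [hB, ProductsNotDense.norm_B]; exact h5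
  set a : EllOne (FreeGroup (Fin 2)) := EllOne.delta (of 0) with ha'
  set b : EllOne (FreeGroup (Fin 2)) := EllOne.delta (of 1) with hb'
  set m : ℕ := 1000000 with hm
  have hm0 : 0 < m := by norm_num [hm]
  set ua : EllOne (FreeGroup (Fin 2)) := av (of 0) m with hua
  set ub : EllOne (FreeGroup (Fin 2)) := av (of 1) m with hub
  set va := 1 - ua with hva
  set vb := 1 - ub with hvb
  set c : EllOne (FreeGroup (Fin 2)) := -(A • (fa * va) + B • (fb * vb)) with hc
  have hcI : c ∈ I0 (FreeGroup (Fin 2)) := by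
    rw [mem_I0_iff_aug, hc, map_neg, map_add, map_smul, map_smul, aug_mul, aug_mul, hva, hvb,
      map_sub, map_sub, aug_one, hua, hub, aug_av _ hm0, aug_av _ hm0]
    simp
  set Z : EllOne (FreeGroup (Fin 2)) := 1 - A • a - B • b with hZ
  have hnorm1 : ‖(1 : EllOne (FreeGroup (Fin 2)))‖ = 1 := by
    rw [EllOne.one_def, EllOne.norm_delta]
  have hva2 : ‖va‖ ≤ 2 := by
    refine (norm_sub_le _ _).trans ?_
    have := norm_av_le (of (0 : Fin 2)) hm0
    rw [hnorm1]
    linarith
  have hvb2 : ‖vb‖ ≤ 2 := by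
    refine (norm_sub_le _ _).trans ?_
    have := norm_av_le (of (1 : Fin 2)) hm0
    rw [hnorm1]
    linarith
  have hdec : x * c - Z = (A • ((a - 1 - x * fa) * va) + B • ((b - 1 - x * fb) * vb)) -
      (A • ((1 - a) * ua) + B • ((1 - b) * ub)) := by
    have h1 : Z = A • (1 - a) + B • (1 - b) := by
      rw [hZ]
      have : (1 : EllOne (FreeGroup (Fin 2))) = (A + B) • (1 : EllOne (FreeGroup (Fin 2))) := by
        rw [hAB, one_smul]
      rw [smul_sub, smul_sub]
      nth_rewrite 1 [this]
      rw [add_smul]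
      abel
    have h2 : x * c = -(A • (x * fa * va) + B • (x * fb * vb)) := by
      rw [hc, mul_neg, mul_add, mul_smul_comm, mul_smul_comm, mul_assoc, mul_assoc]
    have h3 : (1 - a) = (1 - a) * va + (1 - a) * ua := by
      rw [← mul_add, hva, sub_add_cancel, mul_one]
    have h4 : (1 - b) = (1 - b) * vb + (1 - b) * ub := by
      rw [← mul_add, hvb, sub_add_cancel, mul_one]
    rw [h1, h2, h3, h4]
    have h5 : (a - 1 - x * fa) * va = -((1 - a) * va) - x * fa * va := by
      rw [sub_mul, ← neg_sub 1 a, neg_mul]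
    have h6 : (b - 1 - x * fb) * vb = -((1 - b) * vb) - x * fb * vb := by
      rw [sub_mul, ← neg_sub 1 b, neg_mul]
    rw [h5, h6]
    simp only [smul_add, smul_sub, smul_neg, neg_add]
    rw [← h3, ← h4]
    abel
  have hbound : ‖x * c - Z‖ < 1 / 10000 := by
    rw [hdec]
    have e1 : ‖A • ((a - 1 - x * fa) * va)‖ ≤ 14 / 25 * (1 / 25000 * 2) := by
      refine (EllOne.norm_smul_le' _ _).trans ?_
      refine mul_le_mul hnA ((norm_mul_le _ _).trans ?_) (norm_nonneg _) (by norm_num)
      exact mul_le_mul ha hva2 (norm_nonneg _) (by norm_num)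
    have e2 : ‖B • ((b - 1 - x * fb) * vb)‖ ≤ 14 / 25 * (1 / 25000 * 2) := by
      refine (EllOne.norm_smul_le' _ _).trans ?_
      refine mul_le_mul hnB ((norm_mul_le _ _).trans ?_) (norm_nonneg _) (by norm_num)
      exact mul_le_mul hb hvb2 (norm_nonneg _) (by norm_num)
    have e3 : ‖A • ((1 - a) * ua)‖ ≤ 14 / 25 * (2 / m) := by
      refine (EllOne.norm_smul_le' _ _).trans ?_
      exact mul_le_mul hnA (norm_mul_av_le _ hm0) (norm_nonneg _) (by norm_num)
    have e4 : ‖B • ((1 - b) * ub)‖ ≤ 14 / 25 * (2 / m) := by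
      refine (EllOne.norm_smul_le' _ _).trans ?_
      exact mul_le_mul hnB (norm_mul_av_le _ hm0) (norm_nonneg _) (by norm_num)
    have e5 : ((m : ℕ) : ℝ) = 1000000 := by rw [hm]; norm_num
    rw [e5] at e3 e4
    have := norm_sub_le (A • ((a - 1 - x * fa) * va) + B • ((b - 1 - x * fb) * vb))
      (A • ((1 - a) * ua) + B • ((1 - b) * ub))
    have := norm_add_le (A • ((a - 1 - x * fa) * va)) (B • ((b - 1 - x * fb) * vb))
    have := norm_add_le (A • ((1 - a) * ua)) (B • ((1 - b) * ub))
    linarith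
  have hkey := (ProductsNotDense.result.2.2.1 x.coeff c.coeff
    ⟨summable_norm_coeff x, hx⟩ ⟨summable_norm_coeff c, hcI⟩).2
  have hZc : ∀ g, Z.coeff g = ProductsNotDense.zel g := by
    intro g
    rw [hZ, ProductsNotDense.zel, coeff_sub, coeff_sub, coeff_smul, coeff_smul, ha', hb',
      EllOne.one_def, coeff_delta, coeff_delta, coeff_delta]
  have hn : ∑' g, ‖NotFactor.convProd x.coeff c.coeff g - ProductsNotDense.zel g‖ =
      ‖x * c - Z‖ := by
    rw [EllOne.norm_eq]
    refine tsum_congr fun g => ?_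
    rw [coeff_sub, hZc]
    rfl
  rw [hn] at hkey
  linarith

/-- The core estimate in every rank. -/
theorem core {α : Type} [DecidableEq α] {i j : α} (hij : i ≠ j)
    (x fa fb : EllOne (FreeGroup α)) (hx : x ∈ I0 (FreeGroup α))
    (ha : ‖(EllOne.delta (of i) - 1 : EllOne (FreeGroup α)) - x * fa‖ ≤ 1 / 25000)
    (hb : ‖(EllOne.delta (of j) - 1 : EllOne (FreeGroup α)) - x * fb‖ ≤ 1 / 25000) :
    False := by
  set φ : FreeGroup α →* FreeGroup (Fin 2) :=
    FreeGroup.lift (fun l => if l = i then of 0 else if l = j then of 1 else 1) with hφ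
  have hi : φ (of i) = of 0 := by simp [hφ]
  have hj : φ (of j) = of 1 := by simp [hφ, hij.symm]
  have h1 : push φ 1 = 1 := by
    rw [EllOne.one_def, push_delta, map_one, EllOne.one_def]
  refine core_two (push φ x) (push φ fa) (push φ fb) ?_ ?_ ?_
  · rw [mem_I0_iff_aug, aug_push]
    exact (mem_I0_iff_aug x).1 hx
  · have : (EllOne.delta (of 0) - 1 : EllOne (FreeGroup (Fin 2))) - push φ x * push φ fa =
        push φ ((EllOne.delta (of i) - 1 : EllOne (FreeGroup α)) - x * fa) := by
      rw [map_sub, map_sub, push_mul, push_delta, hi, h1]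
    rw [this]
    exact (norm_push_le φ _).trans ha
  · have : (EllOne.delta (of 1) - 1 : EllOne (FreeGroup (Fin 2))) - push φ x * push φ fb =
        push φ ((EllOne.delta (of j) - 1 : EllOne (FreeGroup α)) - x * fb) := by
      rw [map_sub, map_sub, push_mul, push_delta, hj, h1]
    rw [this]
    exact (norm_push_le φ _).trans hb

end Pool.Agent.D0H82.AG
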