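import Pool.Agent.D0H82.AG.L2

/-!
# Finitely supported equivariant operators, and multiplication by indicators
-/

set_option autoImplicit false

namespace Pool.Agent.D0H82.AG.L2

open scoped InnerProductSpace ENNReal
open Filter Topology

section ind

variable {X : Type}

open Classical in
theorem ind_mem (s : Set X) (f : H X) : Memℓp (fun x => if x ∈ s then f x else 0) 2 := by
  rw [memH_iff]
  refine Summable.of_nonneg_of_le (fun _ => sq_nonneg _) (fun x => ?_) (summable_sq f)
  split_ifs
  · exact le_rfl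
  · rw [norm_zero, zero_pow two_ne_zero]
    positivity

open Classical in
/-- Multiplication by the indicator of a set, as a linear map. -/
noncomputable def indL (s : Set X) : H X →ₗ[ℂ] H X where
  toFun f := ⟨fun x => if x ∈ s then f x else 0, ind_mem s f⟩
  map_add' f g := by
    ext x
    change (if x ∈ s then f x + g x else 0) =
      (if x ∈ s then f x else 0) + (if x ∈ s then g x else 0)
    split_ifs <;> simp
  map_smul' c f := by
    ext x
    change (if x ∈ s then c * f x else 0) = c * (if x ∈ s then f x else 0)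
    split_ifs <;> simp

open Classical in
theorem indL_apply (s : Set X) (f : H X) (x : X) :
    indL s f x = if x ∈ s then f x else 0 := rfl

open Classical in
theorem norm_sq_indL (s : Set X) (f : H X) :
    ‖indL s f‖ ^ 2 = ∑' x, if x ∈ s then ‖f x‖ ^ 2 else 0 := by
  rw [norm_sq]
  refine tsum_congr fun x => ?_
  rw [indL_apply]
  split_ifs
  · rfl
  · simp

open Classical in
theorem summable_ind (s : Set X) (f : H X) :
    Summable fun x => if x ∈ s then ‖f x‖ ^ 2 else 0 := by
  refine Summable.of_nonneg_of_le (fun x => ?_) (fun x => ?_) (summable_sq f)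
  · split_ifs
    · positivity
    · exact le_rfl
  · split_ifs
    · exact le_rfl
    · positivity

theorem norm_indL_le (s : Set X) (f : H X) : ‖indL s f‖ ≤ ‖f‖ := by
  classical
  refine le_of_sq_le_sq ?_ (norm_nonneg _)
  rw [norm_sq_indL, norm_sq]
  refine (summable_ind s f).tsum_le_tsum (fun x => ?_) (summable_sq f)
  split_ifs
  · exact le_rfl
  · positivity

/-- Multiplication by the indicator of a set. -/
noncomputable def ind (s : Set X) : H X →L[ℂ] H X :=
  (indL s).mkContinuous 1 (fun f => by rw [one_mul]; exact norm_indL_le s f)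

open Classical in
theorem ind_apply (s : Set X) (f : H X) (x : X) :
    ind s f x = if x ∈ s then f x else 0 := rfl

open Classical in
theorem norm_sq_ind (s : Set X) (f : H X) :
    ‖ind s f‖ ^ 2 = ∑' x, if x ∈ s then ‖f x‖ ^ 2 else 0 := norm_sq_indL s f

theorem norm_ind_le (s : Set X) (f : H X) : ‖ind s f‖ ≤ ‖f‖ := norm_indL_le s f

theorem norm_ind_mono {s t : Set X} (h : s ⊆ t) (f : H X) : ‖ind s f‖ ≤ ‖ind t f‖ := by
  classical
  refine le_of_sq_le_sq ?_ (norm_nonneg _)
  rw [norm_sq_ind, norm_sq_ind]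
  refine (summable_ind s f).tsum_le_tsum (fun x => ?_) (summable_ind t f)
  by_cases hx : x ∈ s
  · rw [if_pos hx, if_pos (h hx)]
  · rw [if_neg hx]
    split_ifs
    · positivity
    · exact le_rfl

theorem inner_ind_right (s : Set X) (f g : H X) (hf : ∀ x, x ∉ s → f x = 0) :
    ⟪f, ind s g⟫_ℂ = ⟪f, g⟫_ℂ := by
  classical
  rw [lp.inner_eq_tsum, lp.inner_eq_tsum]
  refine tsum_congr fun x => ?_
  rw [ind_apply]
  by_cases hx : x ∈ s
  · rw [if_pos hx]
  · rw [if_neg hx, hf x hx, inner_zero_left, inner_zero_left]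

/-- Uniform decay of tails on a finite dimensional subspace. -/
theorem exists_tail (V : Submodule ℂ (H X)) [FiniteDimensional ℂ V] (s : ℕ → Set X)
    (hs : Antitone s) (hs0 : ∀ x, ∃ m, x ∉ s m) :
    ∃ m, ∀ w ∈ V, ‖ind (s m) w‖ ≤ 1 / 2 * ‖w‖ := by
  classical
  have hlim : ∀ w : H X, Tendsto (fun m => ‖ind (s m) w‖ ^ 2) atTop (𝓝 0) := by
    intro w
    have h1 : Tendsto (fun m => ∑' x, if x ∈ s m then ‖w x‖ ^ 2 else 0) atTop
        (𝓝 (∑' _ : X, (0 : ℝ))) := by
      refine tendsto_tsum_of_dominated_convergence (summable_sq w) (fun x => ?_) ?_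
      · obtain ⟨m, hm⟩ := hs0 x
        refine tendsto_const_nhds.congr' ?_
        filter_upwards [eventually_ge_atTop m] with k hk
        rw [if_neg (fun h => hm (hs hk h))]
      · refine Eventually.of_forall fun m x => ?_
        split_ifs
        · rw [Real.norm_eq_abs, abs_of_nonneg (sq_nonneg _)]
        · rw [norm_zero]; positivity
    rw [tsum_zero] at h1
    refine h1.congr fun m => ?_
    rw [norm_sq_ind]
  -- compactness of the unit sphere
  have : ProperSpace V := FiniteDimensional.proper ℂ V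
  have hcomp : IsCompact (Metric.sphere (0 : V) 1) := isCompact_sphere _ _
  set O : ℕ → Set V := fun m => {w : V | ‖ind (s m) (w : H X)‖ < 1 / 2} with hO
  have hOo : ∀ m, IsOpen (O m) := by
    intro m
    refine isOpen_lt ?_ continuous_const
    exact ((ind (s m)).continuous.comp continuous_subtype_val).norm
  have hcov : Metric.sphere (0 : V) 1 ⊆ ⋃ m, O m := by
    intro w _
    have h1 := (hlim (w : H X)).eventually (gt_mem_nhds (show (0 : ℝ) < 1 / 4 by norm_num))
    obtain ⟨m, hm⟩ := h1.exists
    refine Set.mem_iUnion.2 ⟨m, ?_⟩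
    change ‖ind (s m) (w : H X)‖ < 1 / 2
    by_contra hcon
    rw [not_lt] at hcon
    nlinarith
  obtain ⟨m, hm⟩ := hcomp.elim_directed_cover O hOo hcov (by
    refine Monotone.directed_le fun a b hab => ?_
    intro w hw
    exact lt_of_le_of_lt (norm_ind_mono (hs hab) _) hw)
  refine ⟨m, fun w hw => ?_⟩
  by_cases hw0 : w = 0
  · rw [hw0, map_zero, norm_zero, mul_zero]
  · have hn : 0 < ‖w‖ := norm_pos_iff.2 hw0
    set v : V := (‖w‖⁻¹ : ℂ) • ⟨w, hw⟩ with hv
    have hvn : ‖v‖ = 1 := by
      rw [hv, norm_smul, norm_inv, Complex.norm_real, norm_norm]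
      exact inv_mul_cancel₀ hn.ne'
    have hvs : v ∈ Metric.sphere (0 : V) 1 := by
      rw [mem_sphere_zero_iff_norm]
      exact hvn
    have h1 : ‖ind (s m) (v : H X)‖ < 1 / 2 := hm hvs
    have h2 : (v : H X) = (‖w‖⁻¹ : ℂ) • w := rfl
    rw [h2, map_smul, norm_smul, norm_inv, Complex.norm_real, norm_norm] at h1
    rw [inv_mul_lt_iff₀ hn] at h1
    linarith

end ind

section op

variable {ι G : Type} [Group G] [DecidableEq ι] [DecidableEq G]

omit [DecidableEq G] in
theorem elem_summable (j i : ι) (u : G) (f : H (ι × G)) :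
    (Summable fun p : ι × G => ‖if p.1 = j then f (i, u * p.2) else 0‖ ^ 2) ∧
    ∑' p : ι × G, ‖if p.1 = j then f (i, u * p.2) else 0‖ ^ 2 ≤ ‖f‖ ^ 2 := by
  have hinj : Function.Injective (fun g : G => (j, g)) := fun a b h => (Prod.ext_iff.1 h).2
  have hinj2 : Function.Injective (fun g : G => (i, u * g)) := fun a b h => by
    have := (Prod.ext_iff.1 h).2
    exact mul_left_cancel this
  have hz : ∀ p : ι × G, p ∉ Set.range (fun g : G => (j, g)) →
      ‖if p.1 = j then f (i, u * p.2) else 0‖ ^ 2 = 0 := by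
    intro p hp
    rw [if_neg]
    · simp
    · intro h
      exact hp ⟨p.2, Prod.ext h.symm rfl⟩
  have hs2 : Summable fun g : G => ‖f (i, u * g)‖ ^ 2 := (summable_sq f).comp_injective hinj2
  refine ⟨(hinj.summable_iff hz).1 (hs2.congr fun g => by simp), ?_⟩
  rw [← hinj.tsum_eq (f := fun p : ι × G => ‖if p.1 = j then f (i, u * p.2) else 0‖ ^ 2)]
  · rw [norm_sq]
    simp only [if_true]
    exact tsum_comp_le_tsum_of_inj (summable_sq f) (fun _ => sq_nonneg _) hinj2
  · intro p hp
    by_contra hcon
    exact hp (hz p hcon)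

/-- The elementary operator `f ↦ ((j', g) ↦ δ_{j' j} f (i, u g))`, as a linear map. -/
noncomputable def elemL (j i : ι) (u : G) : H (ι × G) →ₗ[ℂ] H (ι × G) where
  toFun f := ⟨fun p => if p.1 = j then f (i, u * p.2) else 0,
    (memH_iff _).2 (elem_summable j i u f).1⟩
  map_add' f g := by
    ext p
    change (if p.1 = j then f (i, u * p.2) + g (i, u * p.2) else 0) =
      (if p.1 = j then f (i, u * p.2) else 0) + (if p.1 = j then g (i, u * p.2) else 0)
    split_ifs <;> simp
  map_smul' c f := by
    ext p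
    change (if p.1 = j then c * f (i, u * p.2) else 0) =
      c * (if p.1 = j then f (i, u * p.2) else 0)
    split_ifs <;> simp

/-- The elementary operator `f ↦ ((j', g) ↦ δ_{j' j} f (i, u g))`. -/
noncomputable def elem (j i : ι) (u : G) : H (ι × G) →L[ℂ] H (ι × G) :=
  (elemL j i u).mkContinuous 1 (fun f => by
    rw [one_mul]
    refine le_of_sq_le_sq ?_ (norm_nonneg _)
    rw [norm_sq (elemL j i u f)]
    exact (elem_summable j i u f).2)

omit [DecidableEq G] in
theorem elem_apply (j i : ι) (u : G) (f : H (ι × G)) (p : ι × G) :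
    elem j i u f p = if p.1 = j then f (i, u * p.2) else 0 := rfl

variable [Fintype ι]

/-- The equivariant operator given by a finitely supported matrix. -/
noncomputable def op (t : ι → (ι × G →₀ ℂ)) : H (ι × G) →L[ℂ] H (ι × G) :=
  ∑ j, ∑ p ∈ (t j).support, t j p • elem j p.1 p.2

omit [DecidableEq G] in
theorem op_apply (t : ι → (ι × G →₀ ℂ)) (f : H (ι × G)) (j : ι) (g : G) :
    op t f (j, g) = ∑ p ∈ (t j).support, t j p * f (p.1, p.2 * g) := by
  have h1 : op t f = ∑ j', ∑ p ∈ (t j').support, t j' p • elem j' p.1 p.2 f := by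
    rw [op, _root_.sum_apply]
    refine Finset.sum_congr rfl fun j' _ => ?_
    rw [_root_.sum_apply]
    rfl
  rw [h1, lp.coeFn_sum, Finset.sum_apply]
  have h2 : ∀ j', (∑ p ∈ (t j').support, t j' p • elem j' p.1 p.2 f : H (ι × G)) (j, g) =
      if j = j' then ∑ p ∈ (t j').support, t j' p * f (p.1, p.2 * g) else 0 := by
    intro j'
    rw [lp.coeFn_sum, Finset.sum_apply]
    by_cases h : j = j'
    · rw [if_pos h]
      refine Finset.sum_congr rfl fun p _ => ?_
      rw [lp.coeFn_smul, Pi.smul_apply, elem_apply, smul_eq_mul]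
      simp [h]
    · rw [if_neg h]
      refine Finset.sum_eq_zero fun p _ => ?_
      rw [lp.coeFn_smul, Pi.smul_apply, elem_apply, smul_eq_mul]
      simp [h]
  rw [Finset.sum_congr rfl fun j' _ => h2 j']
  simp

omit [DecidableEq G] in
theorem op_eqv (t : ι → (ι × G →₀ ℂ)) : Eqv (op t) := by
  intro h f
  ext p
  obtain ⟨j, g⟩ := p
  rw [rho_apply, op_apply, op_apply]
  refine Finset.sum_congr rfl fun p _ => ?_
  rw [rho_apply, mul_assoc]

end op

end Pool.Agent.D0H82.AG.L2
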