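import Pool.Agent.D0H82.AG.Decay

/-!
# Potentials on the Cayley tree of a free group
-/

set_option autoImplicit false

namespace Pool.Agent.D0H82.AG.L2

open scoped InnerProductSpace ENNReal
open Filter Topology
open Pool.Agent.D0H82.AG.Tree
open FreeGroup (mk of)

variable {α : Type} [DecidableEq α]

/-- The potential of a function on the edges of the tree, on words. -/
noncomputable def pot (ψ : α × FreeGroup α → ℂ) : List (α × Bool) → ℂ
  | [] => 0
  | (i, true) :: L => pot ψ L + ψ (i, mk L)
  | (i, false) :: L => pot ψ L - ψ (i, mk ((i, false) :: L))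

/-- The potential of a function on the edges of the tree. -/
noncomputable def phi (ψ : α × FreeGroup α → ℂ) (g : FreeGroup α) : ℂ := pot ψ g.toWord

theorem phi_grad (ψ : α × FreeGroup α → ℂ) (i : α) (g : FreeGroup α) :
    phi ψ (of i * g) - phi ψ g = ψ (i, g) := by
  have h1 : (of i : FreeGroup α) = mk [(i, true)] := rfl
  unfold phi
  rw [h1, toWord_letter_mul]
  by_cases h : g.toWord.head? = some (i, false)
  · rw [if_pos (by simpa using h)]
    cases hw : g.toWord with
    | nil => rw [hw] at h; simp at h
    | cons a w =>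
      rw [hw] at h
      simp only [List.head?_cons, Option.some.injEq] at h
      subst h
      rw [List.tail_cons]
      have h2 : g = mk ((i, false) :: w) := by rw [← hw, FreeGroup.mk_toWord]
      simp only [pot]
      rw [← h2]
      ring
  · rw [if_neg (by simpa using h)]
    simp only [pot]
    rw [FreeGroup.mk_toWord]
    ring

/-- Fox derivatives of a word. -/
noncomputable def fox : List (α × Bool) → (α × FreeGroup α →₀ ℂ)
  | [] => 0
  | (i, true) :: L => fox L + Finsupp.single (i, mk L) 1
  | (i, false) :: L => fox L - Finsupp.single (i, mk ((i, false) :: L)) 1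

theorem fox_spec (ψ : α × FreeGroup α → ℂ) (g : FreeGroup α) (L : List (α × Bool)) :
    Finsupp.linearCombination ℂ (fun p : α × FreeGroup α => ψ (p.1, p.2 * g)) (fox L) =
      phi ψ (mk L * g) - phi ψ g := by
  induction L with
  | nil =>
    rw [← FreeGroup.one_eq_mk, one_mul, sub_self]
    simp [fox]
  | cons a L ih =>
    obtain ⟨i, b⟩ := a
    cases b with
    | true =>
      have h1 : mk ((i, true) :: L) * g = of i * (mk L * g) := by
        rw [← mul_assoc]
        rfl
      rw [fox, map_add, ih, Finsupp.linearCombination_single, h1, one_smul,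
        ← phi_grad ψ i (mk L * g)]
      ring
    | false =>
      have h1 : mk L * g = of i * (mk ((i, false) :: L) * g) := by
        have h2 : (mk ((i, false) :: L) : FreeGroup α) = (of i)⁻¹ * mk L := rfl
        rw [h2]
        group
      rw [fox, map_sub, ih, Finsupp.linearCombination_single, h1, one_smul,
        ← phi_grad ψ i (mk ((i, false) :: L) * g)]
      ring

theorem summable_half {M : ℕ} (hM : 0 < M) :
    Summable fun m : ℕ => (1 / 2 : ℝ) ^ ((m - 1) / M) := by
  rw [← summable_nat_add_iff 1]
  simp only [Nat.add_sub_cancel]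
  set r : ℝ := (1 / 2 : ℝ) ^ ((M : ℝ)⁻¹) with hr
  have hr0 : 0 < r := Real.rpow_pos_of_pos (by norm_num) _
  have hr1 : r < 1 := Real.rpow_lt_one (by norm_num) (by norm_num) (by positivity)
  have hrM : r ^ M = 1 / 2 := Real.rpow_inv_natCast_pow (by norm_num) hM.ne'
  refine Summable.of_nonneg_of_le (fun m => by positivity) (fun m => ?_)
    ((summable_geometric_of_lt_one hr0.le hr1).mul_left 2)
  have h1 : (1 / 2 : ℝ) ^ (m / M) * (1 / 2) = r ^ (M * (m / M) + M) := by
    rw [pow_add, pow_mul, hrM]
  have h2 : r ^ (M * (m / M) + M) ≤ r ^ m := by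
    refine pow_le_pow_of_le_one hr0.le hr1.le ?_
    have := Nat.lt_mul_div_succ m hM
    have h3 : M * (m / M + 1) = M * (m / M) + M := by ring
    omega
  linarith

/-- Potentials of exponentially decaying functions are bounded. -/
theorem phi_bounded (ψ : α × FreeGroup α → ℂ) {M : ℕ} (hM : 0 < M) (D : ℝ) (hD : 0 ≤ D)
    (hψ : ∀ i h, ‖ψ (i, h)‖ ≤ (1 / 2) ^ ((h.toWord.length - 1) / M) * D) :
    ∃ C : ℝ, ∀ g, ‖phi ψ g‖ ≤ C := by
  set b : ℕ → ℝ := fun m => (1 / 2 : ℝ) ^ ((m - 1) / M) * D with hb
  have hbs : Summable b := (summable_half hM).mul_right D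
  have hb0 : ∀ m, 0 ≤ b m := fun m => by positivity
  have hb1s : Summable fun m => b (m + 1) := (summable_nat_add_iff 1).2 hbs
  have key : ∀ L : List (α × Bool), FreeGroup.IsReduced L →
      ‖pot ψ L‖ ≤ ∑ m ∈ Finset.range L.length, (b m + b (m + 1)) := by
    intro L
    induction L with
    | nil =>
      intro _
      simp [pot]
    | cons a L ih =>
      intro hred
      have hredL : FreeGroup.IsReduced L := by
        unfold FreeGroup.IsReduced at hred ⊢
        exact hred.tail
      have h1 := ih hredL
      have e1 : (mk L : FreeGroup α).toWord.length = L.length := by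
        rw [FreeGroup.toWord_mk, hredL.reduce_eq]
      have e2 : (mk (a :: L) : FreeGroup α).toWord.length = L.length + 1 := by
        rw [FreeGroup.toWord_mk, hred.reduce_eq, List.length_cons]
      rw [List.length_cons, Finset.sum_range_succ]
      obtain ⟨i, s⟩ := a
      cases s with
      | true =>
        have h2 := hψ i (mk L)
        rw [e1] at h2
        have h3 := norm_add_le (pot ψ L) (ψ (i, mk L))
        have h4 := hb0 (L.length + 1)
        simp only [pot]
        simp only [hb] at h1 h4 ⊢
        linarith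
      | false =>
        have h2 := hψ i (mk ((i, false) :: L))
        rw [e2] at h2
        have h3 := norm_sub_le (pot ψ L) (ψ (i, mk ((i, false) :: L)))
        have h4 := hb0 L.length
        simp only [pot]
        simp only [hb] at h1 h4 ⊢
        linarith
  refine ⟨∑' m, (b m + b (m + 1)), fun g => (key _ FreeGroup.isReduced_toWord).trans ?_⟩
  exact (hbs.add hb1s).sum_le_tsum _ (fun m _ => add_nonneg (hb0 _) (hb0 _))

/-- **Bounded potentials of kernel vectors.**  Fewer than `n` finitely supported convolution
equations on a free group of rank `n` have a bounded solution which is not constant. -/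
theorem exists_phi {n k : ℕ} (hk : k < n) (x : Fin k → (FreeGroup (Fin n) →₀ ℂ))
    (hx : ∀ j, (x j).sum (fun _ c => c) = 0) :
    ∃ (φ : FreeGroup (Fin n) → ℂ) (C : ℝ), (∀ g, ‖φ g‖ ≤ C) ∧
      (∀ (j : Fin k) (g : FreeGroup (Fin n)), (x j).sum (fun h c => c * φ (h * g)) = 0) ∧
      ∃ (i : Fin n) (g : FreeGroup (Fin n)), φ (of i * g) ≠ φ g := by
  set t : Fin n → (Fin n × FreeGroup (Fin n) →₀ ℂ) := fun j =>
    if h : (j : ℕ) < k then (x ⟨j, h⟩).sum (fun h c => c • fox h.toWord) else 0 with ht
  set j0 : Fin n := ⟨k, hk⟩ with hj0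
  obtain ⟨i0, ψ, hψ0, hψ, horth⟩ := exists_kernel (op t) (op_eqv t) j0 (by
    intro f g
    have h0 : t j0 = 0 := by
      rw [ht, hj0]
      simp
    rw [op_apply, h0]
    simp)
  obtain ⟨M, hM, hdec⟩ := exists_decay t i0 ψ hψ horth
  obtain ⟨C, hC⟩ := phi_bounded (fun p => ψ p) hM ‖ψ‖ (norm_nonneg _) hdec
  refine ⟨phi (fun p => ψ p), C, hC, ?_, ?_⟩
  · intro j g
    have h1 : op t ψ (⟨j, by omega⟩, g) = 0 := by rw [hψ]; rfl
    rw [op_apply] at h1
    have h2 : t ⟨j, by omega⟩ = (x j).sum (fun h c => c • fox h.toWord) := by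
      rw [ht]
      simp
    rw [h2] at h1
    have h3 : Finsupp.linearCombination ℂ
        (fun p : Fin n × FreeGroup (Fin n) => ψ (p.1, p.2 * g))
        ((x j).sum (fun h c => c • fox h.toWord)) = 0 := by
      rw [Finsupp.linearCombination_apply]
      exact h1
    rw [map_finsuppSum] at h3
    simp only [map_smul, fox_spec (fun p => ψ p), FreeGroup.mk_toWord, smul_eq_mul] at h3
    have h4 : (x j).sum (fun h c => c * (phi (fun p => ψ p) (h * g) - phi (fun p => ψ p) g)) =
        (x j).sum (fun h c => c * phi (fun p => ψ p) (h * g)) -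
          (x j).sum (fun _ c => c) * phi (fun p => ψ p) g := by
      rw [Finsupp.sum, Finsupp.sum, Finsupp.sum, Finset.sum_mul, ← Finset.sum_sub_distrib]
      refine Finset.sum_congr rfl fun h _ => ?_
      ring
    rw [h4, hx, zero_mul, sub_zero] at h3
    exact h3
  · by_contra hcon
    push Not at hcon
    apply hψ0
    ext p
    have h1 := phi_grad (fun p => ψ p) p.1 p.2
    rw [hcon, sub_self] at h1
    exact h1.symm

end Pool.Agent.D0H82.AG.L2
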